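import Mathlib

set_option autoImplicit false

open Filter Topology Real

namespace Pool.Agent.Results.MP_85199e_an.OrliczSeries

/-- The number of the block containing `n`. -/
def blk (n : ℕ) : ℕ := Nat.log 4 (n / 64)

/-- Half of the window length in the block of `n`. -/
def wid (n : ℕ) : ℕ := 2 ^ blk n

/-- The offset of `n` in its block. -/
def off (n : ℕ) : ℕ := n - 64 * 4 ^ blk n

/-- The grid point attached to `n`. -/
noncomputable def grid (n : ℕ) : ℝ := 2 * π * ((off n / (2 * wid n) : ℕ) : ℝ) / (32 * wid n)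

/-- `n` is active: it belongs to the first half of the block. -/
def act (n : ℕ) : Prop := 64 ≤ n ∧ n < 128 * 4 ^ blk n

instance (n : ℕ) : Decidable (act n) := by unfold act; infer_instance

/-- The cosine coefficients. -/
noncomputable def ca (n : ℕ) : ℝ :=
  if act n then (1 / (wid n : ℝ)) *
    (if off n % (2 * wid n) < wid n then cos (n * grid n) else - sin (n * grid n)) else 0

/-- The sine coefficients. -/
noncomputable def cb (n : ℕ) : ℝ :=
  if act n then (1 / (wid n : ℝ)) *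
    (if off n % (2 * wid n) < wid n then sin (n * grid n) else cos (n * grid n)) else 0

lemma wid_pos (n : ℕ) : (0 : ℝ) < wid n := by
  have : 0 < wid n := Nat.two_pow_pos _
  exact_mod_cast this

lemma abs_le_wid (n : ℕ) (t : ℝ) (ht : |t| ≤ 1) : |1 / (wid n : ℝ) * t| ≤ 1 / wid n := by
  have := wid_pos n
  rw [abs_mul, abs_of_pos (by positivity)]
  calc 1 / (wid n : ℝ) * |t| ≤ 1 / (wid n : ℝ) * 1 :=
        mul_le_mul_of_nonneg_left ht (by positivity)
    _ = 1 / wid n := mul_one _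

lemma inv_wid_le (n : ℕ) (h : act n) : 1 / (wid n : ℝ) ≤ 16 / √n := by
  have hw := wid_pos n
  have hn : 64 ≤ n := h.1
  have hn0 : (0 : ℝ) < n := by exact_mod_cast (by omega : 0 < n)
  have hs : 0 < √(n : ℝ) := Real.sqrt_pos.mpr hn0
  rw [div_le_div_iff₀ hw hs, one_mul]
  rw [Real.sqrt_le_left (by positivity)]
  have h1 : n / 64 < 4 ^ (blk n + 1) := Nat.lt_pow_succ_log_self (by norm_num) _
  have h2 : n < 64 * 4 ^ (blk n + 1) := by
    have := (Nat.div_lt_iff_lt_mul (by norm_num : 0 < 64)).mp h1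
    omega
  have h3 : n ≤ (16 * wid n) ^ 2 := by
    have : (16 * wid n) ^ 2 = 64 * 4 ^ (blk n + 1) := by
      rw [wid, mul_pow, ← pow_mul, mul_comm (blk n) 2, pow_mul, pow_succ]
      norm_num
      ring
    omega
  exact_mod_cast h3

lemma abs_ca_le (n : ℕ) : |ca n| ≤ 16 / √n := by
  by_cases h : act n
  · rw [ca, if_pos h]
    refine (abs_le_wid n _ ?_).trans (inv_wid_le n h)
    split_ifs
    · exact abs_cos_le_one _
    · rw [abs_neg]; exact abs_sin_le_one _
  · rw [ca, if_neg h, abs_zero]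
    positivity

lemma abs_cb_le (n : ℕ) : |cb n| ≤ 16 / √n := by
  by_cases h : act n
  · rw [cb, if_pos h]
    refine (abs_le_wid n _ ?_).trans (inv_wid_le n h)
    split_ifs
    · exact abs_sin_le_one _
    · exact abs_cos_le_one _
  · rw [cb, if_neg h, abs_zero]
    positivity

lemma summable_of_bound (c : ℕ → ℝ) (hc : ∀ n, |c n| ≤ 16 / √n) (ε : ℝ) (hε : 0 < ε) :
    Summable (fun n : ℕ => |c n| ^ (2 + ε)) := by
  have hs : Summable (fun n : ℕ => (16 : ℝ) ^ (2 + ε) * (1 / (n : ℝ) ^ (1 + ε / 2))) :=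
    (Real.summable_one_div_nat_rpow.mpr (by linarith)).mul_left _
  refine Summable.of_nonneg_of_le (fun n => by positivity) (fun n => ?_) hs
  rcases Nat.eq_zero_or_pos n with rfl | hn
  · have h0 : |c 0| ≤ 0 := by simpa using hc 0
    have h1 : |c 0| = 0 := le_antisymm h0 (abs_nonneg _)
    rw [h1, Real.zero_rpow (by linarith)]
    positivity
  · have hn0 : (0 : ℝ) < n := by exact_mod_cast hn
    calc |c n| ^ (2 + ε) ≤ (16 / √n) ^ (2 + ε) :=
          Real.rpow_le_rpow (abs_nonneg _) (hc n) (by linarith)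
      _ = (16 : ℝ) ^ (2 + ε) * (1 / (n : ℝ) ^ (1 + ε / 2)) := by
          rw [Real.div_rpow (by norm_num) (Real.sqrt_nonneg _), Real.sqrt_eq_rpow,
            ← Real.rpow_mul hn0.le]
          rw [show 1 / 2 * (2 + ε) = 1 + ε / 2 by ring]
          ring

/-- The general term. -/
noncomputable def term (x : ℝ) (n : ℕ) : ℝ := ca n * cos (n * x) + cb n * sin (n * x)

/-- Evaluation of the data of an active index. -/
lemma data (k i s : ℕ) (hi : i < 32 * 2 ^ k) (hs : s < 2 * 2 ^ k) :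
    let n := 64 * 4 ^ k + 2 * 2 ^ k * i + s
    act n ∧ wid n = 2 ^ k ∧ off n = 2 * 2 ^ k * i + s := by
  intro n
  have h4 : 4 ^ k = 2 ^ k * 2 ^ k := by rw [← mul_pow]; norm_num
  have hlt : 2 * 2 ^ k * i + s < 64 * 4 ^ k := by
    have h1 : 2 * 2 ^ k * (i + 1) ≤ 2 * 2 ^ k * (32 * 2 ^ k) := Nat.mul_le_mul_left _ hi
    have h2 : 2 * 2 ^ k * (32 * 2 ^ k) = 64 * 4 ^ k := by rw [h4]; ring
    have h3 : 2 * 2 ^ k * (i + 1) = 2 * 2 ^ k * i + 2 * 2 ^ k := by ring
    omega
  have hn : n = 64 * 4 ^ k + (2 * 2 ^ k * i + s) := by show _ = _; ring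
  have hpos : 0 < 4 ^ k := by positivity
  have hb : blk n = k := by
    rw [blk]
    apply Nat.log_eq_of_pow_le_of_lt_pow
    · rw [Nat.le_div_iff_mul_le (by norm_num)]
      omega
    · rw [Nat.div_lt_iff_lt_mul (by norm_num), pow_succ]
      omega
  refine ⟨⟨by omega, by rw [hb]; omega⟩, by rw [wid, hb], by rw [off, hb]; omega⟩

/-- On the window number `i` of block `k` the general term is a shifted cosine or sine. -/
lemma term_eq (k i s : ℕ) (hi : i < 32 * 2 ^ k) (hs : s < 2 * 2 ^ k) (x θ : ℝ) (m : ℤ)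
    (hx : x = 2 * π * i / (32 * 2 ^ k) + 2 * π * m + θ) :
    term x (64 * 4 ^ k + 2 * 2 ^ k * i + s) = (1 / (2 ^ k : ℝ)) *
      (if s < 2 ^ k then cos (((64 * 4 ^ k + 2 * 2 ^ k * i + s : ℕ) : ℝ) * θ)
        else sin (((64 * 4 ^ k + 2 * 2 ^ k * i + s : ℕ) : ℝ) * θ)) := by
  obtain ⟨h1, h2, h3⟩ := data k i s hi hs
  set n := 64 * 4 ^ k + 2 * 2 ^ k * i + s with hn
  have hk : 0 < 2 * 2 ^ k := by positivity
  have hdiv : (2 * 2 ^ k * i + s) / (2 * 2 ^ k) = i := by
    rw [Nat.mul_add_div hk, Nat.div_eq_of_lt hs, add_zero]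
  have hmod : (2 * 2 ^ k * i + s) % (2 * 2 ^ k) = s := by
    rw [Nat.mul_add_mod, Nat.mod_eq_of_lt hs]
  have hg : grid n = 2 * π * i / (32 * 2 ^ k) := by
    rw [grid, h3, h2, hdiv]; push_cast; rfl
  have hper : (n : ℝ) * θ = n * x - n * grid n - ((n * m : ℤ) : ℝ) * (2 * π) := by
    rw [hg, hx]; push_cast; ring
  have hc : cos ((n : ℝ) * θ) = cos (n * x - n * grid n) := by
    rw [hper, Real.cos_sub_int_mul_two_pi]
  have hsn : sin ((n : ℝ) * θ) = sin (n * x - n * grid n) := by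
    rw [hper, Real.sin_sub_int_mul_two_pi]
  rw [term, ca, cb, if_pos h1, if_pos h1, h2, h3, hmod, hc, hsn, cos_sub, sin_sub]
  push_cast
  split_ifs
  · ring
  · ring

/-- A block sum of nearly constant terms is large. -/
lemma window_large (H : ℕ) (hH : 0 < H) (c : ℝ) (f : ℕ → ℝ) (hc : 7 / 10 ≤ |c|)
    (hf : ∀ s ∈ Finset.range H, |f s - c| ≤ 2 / 5) :
    3 / 10 ≤ |∑ s ∈ Finset.range H, (1 / (H : ℝ)) * f s| := by
  have hHR : (0 : ℝ) < H := by exact_mod_cast hH
  have h1 : |∑ s ∈ Finset.range H, (1 / (H : ℝ)) * f s - c| ≤ 2 / 5 := by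
    have e : ∑ s ∈ Finset.range H, (1 / (H : ℝ)) * f s - c
        = ∑ s ∈ Finset.range H, (1 / (H : ℝ)) * (f s - c) := by
      simp only [mul_sub, Finset.sum_sub_distrib, Finset.sum_const, Finset.card_range,
        nsmul_eq_mul]
      field_simp
    rw [e]
    calc |∑ s ∈ Finset.range H, (1 / (H : ℝ)) * (f s - c)|
        ≤ ∑ s ∈ Finset.range H, |(1 / (H : ℝ)) * (f s - c)| := Finset.abs_sum_le_sum_abs _ _
      _ ≤ ∑ s ∈ Finset.range H, (1 / (H : ℝ)) * (2 / 5) := by
          apply Finset.sum_le_sum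
          intro s hs
          rw [abs_mul, abs_of_pos (by positivity : (0 : ℝ) < 1 / H)]
          exact mul_le_mul_of_nonneg_left (hf s hs) (by positivity)
      _ = 2 / 5 := by
          rw [Finset.sum_const, Finset.card_range, nsmul_eq_mul]
          field_simp
  have h2 : |c| ≤ |∑ s ∈ Finset.range H, (1 / (H : ℝ)) * f s| +
      |∑ s ∈ Finset.range H, (1 / (H : ℝ)) * f s - c| := by
    calc |c| = |∑ s ∈ Finset.range H, (1 / (H : ℝ)) * f s -
          (∑ s ∈ Finset.range H, (1 / (H : ℝ)) * f s - c)| := by congr 1; ring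
      _ ≤ _ := abs_sub _ _
  linarith

/-- In every block and for every `x` some sum of consecutive terms is at least `3/10`. -/
lemma block_large (x : ℝ) (k : ℕ) : ∃ p q : ℕ, 64 * 4 ^ k ≤ p ∧ p ≤ q ∧
    3 / 10 ≤ |∑ n ∈ Finset.Ico p q, term x n| := by
  have hpi := Real.pi_pos
  set H : ℕ := 2 ^ k with hHdef
  have hH : 0 < H := by positivity
  have hHR : (0 : ℝ) < H := by exact_mod_cast hH
  -- choice of the grid point
  set y : ℝ := x / (2 * π) with hy
  set m : ℤ := ⌊y⌋ with hm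
  have hy0 : 0 ≤ y - m := by have := Int.floor_le y; linarith
  have hy1 : y - m < 1 := by have := Int.lt_floor_add_one y; linarith
  set i : ℕ := ⌊(y - m) * (32 * H)⌋₊ with hidef
  have hi1 : (i : ℝ) ≤ (y - m) * (32 * H) := Nat.floor_le (by positivity)
  have hi2 : (y - m) * (32 * H) < i + 1 := Nat.lt_floor_add_one _
  have hi : i < 32 * H := by
    have : (i : ℝ) < 32 * H := by nlinarith
    exact_mod_cast this
  set θ : ℝ := x - 2 * π * i / (32 * H) - 2 * π * m with hθ
  have hxθ : x = 2 * π * i / (32 * 2 ^ k) + 2 * π * m + θ := by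
    rw [hθ, hHdef]; push_cast; ring
  have hxy : x = 2 * π * y := by rw [hy]; field_simp
  have hθe : θ = 2 * π / (32 * H) * ((y - m) * (32 * H) - i) := by
    rw [hθ]
    nth_rw 1 [hxy]
    field_simp
    ring
  have hθ0 : 0 ≤ θ := by
    rw [hθe]; exact mul_nonneg (by positivity) (by linarith)
  have hθ1 : θ ≤ 2 * π / (32 * H) := by
    rw [hθe]
    calc 2 * π / (32 * H) * ((y - m) * (32 * H) - i) ≤ 2 * π / (32 * H) * 1 :=
          mul_le_mul_of_nonneg_left (by linarith) (by positivity)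
      _ = _ := mul_one _
  set n0 : ℕ := 64 * 4 ^ k + 2 * H * i with hn0
  have hphase : ∀ s : ℕ, s < 2 * H → |((n0 + s : ℕ) : ℝ) * θ - n0 * θ| ≤ 2 / 5 := by
    intro s hs
    have e : ((n0 + s : ℕ) : ℝ) * θ - n0 * θ = s * θ := by push_cast; ring
    rw [e, abs_of_nonneg (by positivity)]
    have hsR : (s : ℝ) ≤ 2 * H := by exact_mod_cast hs.le
    calc (s : ℝ) * θ ≤ (2 * H) * (2 * π / (32 * H)) :=
          mul_le_mul hsR hθ1 hθ0 (by positivity)
      _ = π / 8 := by field_simp; ring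
      _ ≤ 2 / 5 := by have := Real.pi_lt_d2; linarith
  have hbase : 7 / 10 ≤ |cos (n0 * θ)| ∨ 7 / 10 ≤ |sin (n0 * θ)| := by
    by_contra hcon
    push Not at hcon
    have h1 := Real.sin_sq_add_cos_sq ((n0 : ℝ) * θ)
    have h2 : cos (n0 * θ) ^ 2 < (7 / 10) ^ 2 := by
      rw [← sq_abs]; exact pow_lt_pow_left₀ hcon.1 (abs_nonneg _) (by norm_num)
    have h3 : sin (n0 * θ) ^ 2 < (7 / 10) ^ 2 := by
      rw [← sq_abs]; exact pow_lt_pow_left₀ hcon.2 (abs_nonneg _) (by norm_num)
    norm_num at h2 h3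
    linarith
  rcases hbase with hb | hb
  · refine ⟨n0, n0 + H, by omega, by omega, ?_⟩
    rw [Finset.sum_Ico_eq_sum_range, show n0 + H - n0 = H by omega]
    have e : ∑ s ∈ Finset.range H, term x (n0 + s)
        = ∑ s ∈ Finset.range H, (1 / (H : ℝ)) * cos (((n0 + s : ℕ) : ℝ) * θ) := by
      apply Finset.sum_congr rfl
      intro s hs
      rw [Finset.mem_range] at hs
      have := term_eq k i s hi (by omega) x θ m hxθ
      rw [if_pos hs] at this
      rw [hn0, this, hHdef]
      push_cast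
      rfl
    rw [e]
    refine window_large H hH (cos (n0 * θ)) _ hb ?_
    intro s hs
    rw [Finset.mem_range] at hs
    refine le_trans ?_ (hphase s (by omega))
    exact Real.abs_cos_sub_cos_le _ _
  · refine ⟨n0 + H, n0 + H + H, by omega, by omega, ?_⟩
    rw [Finset.sum_Ico_eq_sum_range, show n0 + H + H - (n0 + H) = H by omega]
    have e : ∑ s ∈ Finset.range H, term x (n0 + H + s)
        = ∑ s ∈ Finset.range H, (1 / (H : ℝ)) * sin (((n0 + (H + s) : ℕ) : ℝ) * θ) := by
      apply Finset.sum_congr rfl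
      intro s hs
      rw [Finset.mem_range] at hs
      have := term_eq k i (H + s) hi (by omega) x θ m hxθ
      rw [if_neg (by omega)] at this
      rw [add_assoc, hn0, this, hHdef]
      push_cast
      rfl
    rw [e]
    refine window_large H hH (sin (n0 * θ)) _ hb ?_
    intro s hs
    rw [Finset.mem_range] at hs
    refine le_trans ?_ (hphase (H + s) (by omega))
    exact Real.abs_sin_sub_sin_le _ _

/-- There is a real trigonometric series with coefficients in every `ℓ^p`, `p > 2`, that diverges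
everywhere. -/
theorem result : ∃ a b : ℕ → ℝ,
    (∀ ε : ℝ, 0 < ε →
      Summable (fun n : ℕ => |a (n + 1)| ^ (2 + ε) + |b (n + 1)| ^ (2 + ε))) ∧
    ∀ x : ℝ, ¬ ∃ l : ℝ, Tendsto
      (fun N : ℕ => ∑ n ∈ Finset.Icc 1 N, (a n * cos (n * x) + b n * sin (n * x)))
      atTop (𝓝 l) := by
  refine ⟨ca, cb, ?_, ?_⟩
  · intro ε hε
    have h1 := (summable_nat_add_iff 1).mpr (summable_of_bound ca abs_ca_le ε hε)
    have h2 := (summable_nat_add_iff 1).mpr (summable_of_bound cb abs_cb_le ε hε)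
    exact h1.add h2
  · rintro x ⟨l, hl⟩
    have hS : ∀ N : ℕ, ∑ n ∈ Finset.Icc 1 N, (ca n * cos (n * x) + cb n * sin (n * x))
        = ∑ n ∈ Finset.Ico 1 (N + 1), term x n := fun N => rfl
    simp only [hS] at hl
    have hcau := Metric.cauchySeq_iff.mp hl.cauchySeq (3 / 10) (by norm_num)
    obtain ⟨N0, hN0⟩ := hcau
    obtain ⟨p, q, hp, hpq, hlarge⟩ := block_large x N0
    have hN0lt : N0 < 4 ^ N0 := Nat.lt_pow_self (by norm_num)
    have h1 := hN0 (q - 1) (by omega) (p - 1) (by omega)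
    have hcons := Finset.sum_Ico_consecutive (term x) (show 1 ≤ p by omega) hpq
    rw [Real.dist_eq, show q - 1 + 1 = q by omega, show p - 1 + 1 = p by omega, ← hcons,
      add_sub_cancel_left] at h1
    linarith

end Pool.Agent.Results.MP_85199e_an.OrliczSeries
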